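import Pool.Agent.Lib.MP_28303a_al.NT.ER.Defs
import Pool.Agent.Lib.MP_28303a_al.NT.H78.Regb

/-! # Row CL: the closure properties of the class of functors -/

set_option autoImplicit false
set_option linter.unusedSectionVars false
set_option linter.unusedVariables false

namespace Pool.Agent.NegK.NT.ER47

universe u

open CategoryTheory Limits Opposite
open Pool.Agent.NegK.NT.ER

section

variable {k : Type u} [Ring k] {Γ : Type u} [Group Γ] {B : Type u} [MulAction Γ B] {P : Pre Γ B}

theorem fin0_sub' (W : SubMulAction Γ B) (h : H78.Fin0 P) : H78.Fin0 (sub P W) where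
  antisymm x y hxy hyx := Subtype.ext (h.antisymm x.1 y.1 hxy hyx)
  finite y := (h.finite y.1).preimage (f := fun x : W => x.1) Subtype.val_injective.injOn

theorem stab_sub (W : SubMulAction Γ B) (x : W) :
    MulAction.stabilizer Γ x = MulAction.stabilizer Γ x.1 := by
  ext g
  rw [MulAction.mem_stabilizer_iff, MulAction.mem_stabilizer_iff, Subtype.ext_iff]
  rfl

theorem fpv_pb_ps (W : SubMulAction Γ B) (h0 : H78.Fin0 P) (hW : Up P W) {n : ℕ}
    (loc : Fin n → Bx P) :
    H78.FPV (k := k) (B := Bx (sub P W)) ((pb k (inc P W)).obj (H78.PS k loc)) := by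
  classical
  let ι : Type := {i : Fin n // (loc i).pt ∈ W}
  let loc' : ι → Bx (sub P W) := fun i => Bx.of ⟨(loc i.1).pt, i.2⟩
  let φ : H78.PS k loc' ⟶ (pb k (inc P W)).obj (H78.PS k loc) :=
    H78.lift loc' fun i => (H78.pg loc i.1 (𝟙 (loc i.1)) (1 : k) :
      H78.Val (H78.PS k loc) (loc i.1))
  let up : ∀ {U : Bx (sub P W)} {i : ι} (f : U ⟶ loc' i), ((Bx.of U.pt.1 : Bx P) ⟶ loc i.1) :=
    fun f => Bx.mk' (Bx.el f) (Bx.le_el f)
  have hφ : ∀ (U : Bx (sub P W)) (i : ι) (f : U ⟶ loc' i) (r : k),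
      H78.vmap φ U (H78.pg loc' i f r) = (H78.pg loc i.1 (up f) r :
        H78.Val (H78.PS k loc) (Bx.of U.pt.1)) := by
    intro U i f r
    refine (H78.lift_pg loc' _ i f r).trans ?_
    have h1 : H78.res (H78.PS k loc) (up f) (H78.pg loc i.1 (𝟙 (loc i.1)) (1 : k)) =
        H78.pg loc i.1 (up f) (1 : k) := by
      rw [H78.res_pg, Category.comp_id]
    have h2 : r • H78.pg loc i.1 (up f) (1 : k) = H78.pg loc i.1 (up f) r := by
      rw [H78.smul_pg, mul_one]
    exact (congrArg (fun z => r • z) h1).trans h2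
  have hinj : ∀ U : Bx (sub P W), Function.Injective (H78.vmap φ U) := by
    intro U
    let q : H78.Val (H78.PS k loc) (Bx.of U.pt.1) →ₗ[k] H78.Val (H78.PS k loc') U :=
      Finsupp.linearCombination k (fun p : (Σ i, ((Bx.of U.pt.1 : Bx P) ⟶ loc i)) =>
        (H78.pg loc' (⟨p.1, up_el hW p.2 U.pt.2⟩ : ι) (Bx.mk' (Bx.el p.2) (Bx.le_el p.2)) (1 : k) :
          H78.Val (H78.PS k loc') U))
    refine Function.LeftInverse.injective (g := q) fun x => ?_
    have h1 : (q.toAddMonoidHom.comp (H78.vmap φ U).toAddMonoidHom) = AddMonoidHom.id _ := by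
      refine H78.pg_hom_ext loc' fun i a r => ?_
      show q (H78.vmap φ U (H78.pg loc' i a r)) = H78.pg loc' i a r
      rw [hφ]
      refine (Finsupp.linearCombination_single k r _).trans ?_
      rw [H78.smul_pg, mul_one]
      rfl
    exact DFunLike.congr_fun h1 x
  have hsurj : ∀ U : Bx (sub P W), Function.Surjective (H78.vmap φ U) := by
    intro U x
    let x' : H78.Val (H78.PS k loc) (Bx.of U.pt.1) := x
    have h1 : ∀ x' : H78.Val (H78.PS k loc) (Bx.of U.pt.1), ∃ y, H78.vmap φ U y = x' := by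
      intro x'
      induction x' using H78.pg_induction with
      | h0 => exact ⟨0, map_zero _⟩
      | hadd x y hx hy =>
        obtain ⟨x', hx'⟩ := hx
        obtain ⟨y', hy'⟩ := hy
        exact ⟨x' + y', (map_add _ _ _).trans (congrArg₂ (fun a b => a + b) hx' hy')⟩
      | h i a r =>
        refine ⟨H78.pg loc' (⟨i, up_el hW a U.pt.2⟩ : ι) (Bx.mk' (Bx.el a) (Bx.le_el a)) r, ?_⟩
        rw [hφ]
        rfl
    exact h1 x'
  have h1 := H78.epi_of_val φ hsurj
  have h2 := H78.mono_of_val φ hinj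
  have h3 : IsIso φ := isIso_of_mono_of_epi _
  exact H78.FPV.iso (asIso φ) (H78.FPV.ps loc' (H78.ei (fin0_sub' W h0)))

end

/-- Row CL. -/
theorem cl : ClStatement.{u} := by
  intro Γ _ T D j _ _ K hS k _ hk
  have h0 := H78.fin0 T K.fin
  have h1 := fin0_sub' (nv K) h0
  have hR : ∀ U : Bx (sub (T.P Finset.univ) (nv K)), H78.RC (H78.Rg k U) := fun U =>
    H78.rc_end h1 U (by
      have h2 := hS U.pt.1 U.pt.2 k hk
      rw [stab_sub]
      exact h2)
  exact
    { iso := fun M N e h => e.elim fun e =>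
        H78.FPV.iso ((pb k (inc (T.P Finset.univ) (nv K))).mapIso e) h
      ker := fun M N f hM hN => by
        have h3 := H78.FPV.ker hR ((pb k (inc (T.P Finset.univ) (nv K))).map f) hM hN
        exact H78.FPV.iso (PreservesKernel.iso (pb k (inc (T.P Finset.univ) (nv K))) f).symm h3
      coker := fun M N f hM hN => by
        have h3 := H78.FPV.coker hR ((pb k (inc (T.P Finset.univ) (nv K))).map f) hM hN
        exact H78.FPV.iso (PreservesCokernel.iso (pb k (inc (T.P Finset.univ) (nv K))) f).symm h3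
      fin := fun A hA => by
        obtain ⟨n, loc, ⟨e⟩⟩ := H78.exists_iso_ps A
        exact H78.FPV.iso ((pb k (inc (T.P Finset.univ) (nv K))).mapIso e)
          (fpv_pb_ps (nv K) h0 (up_nv K) loc) }

end Pool.Agent.NegK.NT.ER47
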