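import Pool.Agent.Lib.MP_28303a_al.NT.ER.Defs

/-! # TR: the vertex part of an acyclic functor is a retract of the sums over the edges -/

set_option autoImplicit false
set_option linter.unusedSectionVars false
set_option linter.unusedVariables false

namespace Pool.Agent.NegK.NT.ER47

universe u

open CategoryTheory Limits Opposite
open Pool.Agent.NegK.TW Pool.Agent.NegK.NT.ER

section

variable {k : Type u} [Ring k] {Γ : Type u} [Group Γ] {B C : Type u} [MulAction Γ B]
  [MulAction Γ C] {P : Pre Γ B} {Q : Pre Γ C} (M : Fn k P)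

/-- The map of a morphism. -/
noncomputable def rg {U V : Bx P} (f : U ⟶ V) : M.obj (op V) →ₗ[k] M.obj (op U) := (M.map f.op).hom

theorem rg_comp {U V W : Bx P} (f : U ⟶ V) (g : V ⟶ W) (x : M.obj (op W)) :
    rg M f (rg M g x) = rg M (f ≫ g) x := by
  rw [rg, rg, rg, op_comp, M.map_comp]
  rfl

theorem rg_congr {U V : Bx P} {f g : U ⟶ V} (h : Bx.el f = Bx.el g) (x : M.obj (op V)) :
    rg M f x = rg M g x := by rw [Bx.hom_ext h]

theorem rg_id {U : Bx P} {f : U ⟶ U} (h : Bx.el f = 1) (x : M.obj (op U)) : rg M f x = x := by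
  have : f = 𝟙 U := Bx.hom_ext h
  rw [this, rg, op_id, M.map_id]
  rfl

/-- The morphism of an inequality. -/
def ole {U V : Bx P} (h : P.le U.pt V.pt) : U ⟶ V := Bx.mk' 1 (by
  rw [one_smul]
  exact h)

theorem el_ole {U V : Bx P} (h : P.le U.pt V.pt) : Bx.el (ole h) = 1 := rfl

open Classical in
/-- The sum of the restrictions. -/
noncomputable def rrL (q : Dfib Q P) (m : Loc.Mono Q P) (h : ∀ c, P.le (q.φ c) (m.φ c))
    (U : Bx P) : (DirectSum (Fb q U.pt) fun c => ((pb k m).obj M).obj (op (Bx.of c.1))) →ₗ[k]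
      M.obj (op U) :=
  DirectSum.toModule k (Fb q U.pt) _ fun c =>
    rg M (ole (U := U) (V := Bx.of (m.φ c.1)) (by
      have := h c.1
      rwa [c.2] at this))

theorem rrL_yl (q : Dfib Q P) (m : Loc.Mono Q P) (h : ∀ c, P.le (q.φ c) (m.φ c)) (U : Bx P)
    (c : Fb q U.pt) (x : ((pb k m).obj M).obj (op (Bx.of c.1))) :
    rrL M q m h U (yl q ((pb k m).obj M) c x) =
      rg M (ole (U := U) (V := Bx.of (m.φ c.1)) (by
        have := h c.1
        rwa [c.2] at this)) x := by
  classical
  rw [rrL]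
  erw [DirectSum.toModule_lof]
  rfl

/-- The sum of the restrictions. -/
noncomputable def rrm (q : Dfib Q P) (m : Loc.Mono Q P) (h : ∀ c, P.le (q.φ c) (m.φ c)) :
    (yy q).obj ((pb k m).obj M) ⟶ M where
  app U := ModuleCat.ofHom (rrL M q m h U.unop)
  naturality U V f := by
    refine ModuleCat.hom_ext (y_ext q _ fun c x => ?_)
    show rrL M q m h V.unop (ym q _ f.unop (yl q _ c x)) = rg M f.unop (rrL M q m h U.unop
      (yl q _ c x))
    rw [ym_yl, rrL_yl, rrL_yl]
    show rg M (ole _) (rg M ((bxF m).map (q.hm f.unop c)) x) = rg M f.unop (rg M (ole _) x)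
    rw [rg_comp, rg_comp]
    refine rg_congr M ?_ x
    rw [Bx.el_comp, Bx.el_comp]
    exact (one_mul _).trans (mul_one _).symm

end

section

variable {Γ : Type u} [Group Γ] {T : Sys Γ} {j : Fin T.m}

/-- The label of the direction `j` becomes larger. -/
noncomputable def ou {U : T.Box} {c c' : T.B j} (h : c ≤ c') :
    (Bx.of (T.up j U c) : Bx (T.P Finset.univ)) ⟶ Bx.of (T.up j U c') :=
  ole (T.up_le Finset.univ j U h)

/-- The morphism of boxes with another label. -/
noncomputable def fu {U U' : Bx (T.P Finset.univ)} (f : U ⟶ U') {c c' : T.B j} (h : c = Bx.el f • c') :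
    (Bx.of (T.up j U.pt c) : Bx (T.P Finset.univ)) ⟶ Bx.of (T.up j U'.pt c') :=
  Bx.mk' (Bx.el f) (by
    intro i hi
    show Function.update U.pt j c i ≤ Bx.el f • Function.update U'.pt j c' i
    by_cases hij : i = j
    · subst hij
      rw [Function.update_self, Function.update_self, h]
    · rw [Function.update_of_ne hij, Function.update_of_ne hij]
      exact Bx.le_el f i hi)

end

section

variable {Γ : Type u} [Group Γ] {T : Sys Γ} {D : T.Tr} {j : Fin T.m} [MulAction Γ (D.V j)]
  [MulAction Γ (D.E j)] (K : Mk D j) {k : Type u} [Ring k] (M : Fn k (T.P Finset.univ))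

variable (D j) in
/-- The sum over the vertices. -/
abbrev MV (U : T.Box) : Type u :=
  DirectSum (D.V j) fun v => M.obj (op (Bx.of (T.up j U (D.vt j v)) : Bx (T.P Finset.univ)))

variable (D j) in
/-- The sum over the edges. -/
abbrev ME (U : T.Box) : Type u :=
  DirectSum (D.E j) fun e => M.obj (op (Bx.of (T.up j U (D.ed j e)) : Bx (T.P Finset.univ)))

open Classical in
variable (D j) in
/-- The summand of a vertex. -/
noncomputable abbrev lv (U : T.Box) (v : D.V j) :
    M.obj (op (Bx.of (T.up j U (D.vt j v)) : Bx (T.P Finset.univ))) →ₗ[k] MV D j M U :=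
  DirectSum.lof k (D.V j) (fun v => M.obj (op (Bx.of (T.up j U (D.vt j v)) : Bx (T.P Finset.univ))))
    v

open Classical in
variable (D j) in
/-- The summand of an edge. -/
noncomputable abbrev le' (U : T.Box) (e : D.E j) :
    M.obj (op (Bx.of (T.up j U (D.ed j e)) : Bx (T.P Finset.univ))) →ₗ[k] ME D j M U :=
  DirectSum.lof k (D.E j) (fun e => M.obj (op (Bx.of (T.up j U (D.ed j e)) : Bx (T.P Finset.univ))))
    e

theorem bd_le (U : T.Box) (e : D.E j)
    (x : M.obj (op (Bx.of (T.up j U (D.ed j e)) : Bx (T.P Finset.univ)))) :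
    D.bd M j U (le' D j M U e x) = lv D j M U (D.s j e) (rg M (ou (D.sle j e)) x) -
      lv D j M U (D.t j e) (rg M (ou (D.tle j e)) x) := by
  classical
  rw [Sys.Tr.bd]
  erw [DirectSum.toModule_lof]
  rfl

theorem ext_E {U : T.Box} {Y : Type u} [AddCommGroup Y] [Module k Y] {f g : ME D j M U →ₗ[k] Y}
    (h : ∀ e x, f (le' D j M U e x) = g (le' D j M U e x)) : f = g := by
  classical
  exact DirectSum.linearMap_ext k fun e => LinearMap.ext fun x => h e x

theorem ext_V {U : T.Box} {Y : Type u} [AddCommGroup Y] [Module k Y] {f g : MV D j M U →ₗ[k] Y}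
    (h : ∀ e x, f (lv D j M U e x) = g (lv D j M U e x)) : f = g := by
  classical
  exact DirectSum.linearMap_ext k fun e => LinearMap.ext fun x => h e x

/-! ### The maps induced by a morphism -/

open Classical in
/-- The map on the sums over the edges. -/
noncomputable def mE {U U' : Bx (T.P Finset.univ)} (f : U ⟶ U') :
    ME D j M U'.pt →ₗ[k] ME D j M U.pt :=
  DirectSum.toModule k (D.E j) _ fun e =>
    le' D j M U.pt (Bx.el f • e) ∘ₗ rg M (fu f (K.ed_smul (Bx.el f) e))

open Classical in
/-- The map on the sums over the vertices. -/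
noncomputable def mV {U U' : Bx (T.P Finset.univ)} (f : U ⟶ U') :
    MV D j M U'.pt →ₗ[k] MV D j M U.pt :=
  DirectSum.toModule k (D.V j) _ fun e =>
    lv D j M U.pt (Bx.el f • e) ∘ₗ rg M (fu f (K.vt_smul (Bx.el f) e))

theorem mE_le {U U' : Bx (T.P Finset.univ)} (f : U ⟶ U') (e : D.E j)
    (x : M.obj (op (Bx.of (T.up j U'.pt (D.ed j e)) : Bx (T.P Finset.univ)))) :
    mE K M f (le' D j M U'.pt e x) =
      le' D j M U.pt (Bx.el f • e) (rg M (fu f (K.ed_smul (Bx.el f) e)) x) := by
  classical
  rw [mE]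
  erw [DirectSum.toModule_lof]
  rfl

theorem mV_lv {U U' : Bx (T.P Finset.univ)} (f : U ⟶ U') (e : D.V j)
    (x : M.obj (op (Bx.of (T.up j U'.pt (D.vt j e)) : Bx (T.P Finset.univ)))) :
    mV K M f (lv D j M U'.pt e x) =
      lv D j M U.pt (Bx.el f • e) (rg M (fu f (K.vt_smul (Bx.el f) e)) x) := by
  classical
  rw [mV]
  erw [DirectSum.toModule_lof]
  rfl

/-- Elements of equal summands. -/
theorem lv_eq {U : T.Box} {v v' : D.V j} (h : v = v') {X : Bx (T.P Finset.univ)}
    (a : (Bx.of (T.up j U (D.vt j v)) : Bx (T.P Finset.univ)) ⟶ X)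
    (b : (Bx.of (T.up j U (D.vt j v')) : Bx (T.P Finset.univ)) ⟶ X) (hab : Bx.el a = Bx.el b)
    (x : M.obj (op X)) : lv D j M U v (rg M a x) = lv D j M U v' (rg M b x) := by
  subst h
  rw [rg_congr M hab]

/-- The differential is natural. -/
theorem bd_nat {U U' : Bx (T.P Finset.univ)} (f : U ⟶ U') (z : ME D j M U'.pt) :
    D.bd M j U.pt (mE K M f z) = mV K M f (D.bd M j U'.pt z) := by
  have h : D.bd M j U.pt ∘ₗ mE K M f = mV K M f ∘ₗ D.bd M j U'.pt := by
    refine ext_E M fun e x => ?_
    rw [LinearMap.comp_apply, LinearMap.comp_apply, mE_le, bd_le, bd_le, map_sub, mV_lv, mV_lv,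
      rg_comp, rg_comp, rg_comp, rg_comp]
    congr 1
    · exact lv_eq M (K.s_smul (Bx.el f) e) _ _ (by
        rw [Bx.el_comp, Bx.el_comp]
        exact (one_mul _).trans (mul_one _).symm) x
    · exact lv_eq M (K.t_smul (Bx.el f) e) _ _ (by
        rw [Bx.el_comp, Bx.el_comp]
        exact (one_mul _).trans (mul_one _).symm) x
  exact LinearMap.congr_fun h z

/-! ### Flags -/

variable (D j) in
/-- The end of an edge. -/
def en (e : D.E j) (b : Bool) : D.V j := if b then D.s j e else D.t j e

variable (D j) in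
/-- The flag over `U`. -/
noncomputable def fg (U : T.Box) (e : D.E j) (b : Bool) : Fl D j :=
  ⟨((e, ⟨b⟩), T.up j U (D.ed j e)), Function.update_self _ _ _⟩

theorem φ_fg (U : T.Box) (e : D.E j) (b : Bool) (h : U j = D.vt j (en D j e b)) :
    letI := flAct K; (flq K).φ (fg D j U e b) = U := by
  funext i
  show Function.update (Function.update U j _) j (D.vt j (en D j e b)) i = U i
  by_cases hi : i = j
  · rw [hi, Function.update_self, h]
  · rw [Function.update_of_ne hi, Function.update_of_ne hi]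

/-- The flag as an element of the fibre. -/
noncomputable def fb (U : T.Box) (e : D.E j) (b : Bool) (h : U j = D.vt j (en D j e b)) :
    letI := flAct K; Fb (flq K) U := ⟨fg D j U e b, φ_fg K U e b h⟩

/-- The restriction to the flags. -/
noncomputable abbrev Mf : letI := flAct K; Fn k (flP K) :=
  letI := flAct K; (pb k (flr K)).obj M

/-- The value of `ye`. -/
abbrev Y (U : T.Box) : Type u :=
  letI := flAct K; DirectSum (Fb (flq K) U) fun c => (Mf K M).obj (op (Bx.of c.1))

open Classical in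
/-- One of the two components. -/
noncomputable def pb1 (U : T.Box) (e : D.E j) (b : Bool) :
    M.obj (op (Bx.of (T.up j U (D.ed j e)) : Bx (T.P Finset.univ))) →ₗ[k] Y K M U :=
  letI := flAct K
  if h : U j = D.vt j (en D j e b) then yl (flq K) (Mf K M) (fb K U e b h) else 0

open Classical in
/-- The projection to the flags over `U`. -/
noncomputable def pr (U : T.Box) : ME D j M U →ₗ[k] Y K M U :=
  DirectSum.toModule k (D.E j) _ fun e => pb1 K M U e true - pb1 K M U e false

theorem pr_le (U : T.Box) (e : D.E j)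
    (x : M.obj (op (Bx.of (T.up j U (D.ed j e)) : Bx (T.P Finset.univ)))) :
    pr K M U (le' D j M U e x) = pb1 K M U e true x - pb1 K M U e false x := by
  classical
  rw [pr]
  erw [DirectSum.toModule_lof]
  rfl

include K in
theorem en_smul (g : Γ) (e : D.E j) (b : Bool) : en D j (g • e) b = g • en D j e b := by
  cases b
  · exact K.t_smul g e
  · exact K.s_smul g e

/-- Naturality of the projections. -/
theorem pb1_nat {U U' : Bx (T.P Finset.univ)} (f : U ⟶ U') (v : D.V j)
    (hv : U'.pt j = D.vt j v) (e : D.E j) (b : Bool)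
    (x : M.obj (op (Bx.of (T.up j U'.pt (D.ed j e)) : Bx (T.P Finset.univ)))) :
    letI := flAct K
    pb1 K M U.pt (Bx.el f • e) b (rg M (fu f (K.ed_smul (Bx.el f) e)) x) =
      ym (flq K) (Mf K M) f (pb1 K M U'.pt e b x) := by
  let := flAct K
  have h0 : U.pt j = D.vt j (Bx.el f • v) := by
    have h1 := Bx.le_el f j (Finset.mem_univ j)
    have h2 : (Bx.el f • U'.pt) j = D.vt j (Bx.el f • v) := by
      rw [K.vt_smul, ← hv]
      rfl
    rw [h2] at h1
    exact K.vt_min _ _ h1
  by_cases h : U'.pt j = D.vt j (en D j e b)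
  · have hve : v = en D j e b := K.vt_inj (hv.symm.trans h)
    have h' : U.pt j = D.vt j (en D j (Bx.el f • e) b) := by
      rw [en_smul K, h0, hve]
    have e1 : pb1 K M U.pt (Bx.el f • e) b = yl (flq K) (Mf K M) (fb K U.pt (Bx.el f • e) b h') :=
      dif_pos h'
    have e2 : pb1 K M U'.pt e b = yl (flq K) (Mf K M) (fb K U'.pt e b h) := dif_pos h
    rw [e1, e2]
    refine Eq.trans ?_ (ym_yl (flq K) (Mf K M) f (fb K U'.pt e b h) x).symm
    have hle : (flP K).le (fb K U.pt (Bx.el f • e) b h').1 (Bx.el f • (fb K U'.pt e b h).1) :=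
      ⟨rfl, Bx.le_el (fu f (K.ed_smul (Bx.el f) e))⟩
    exact yl_eq (flq K) (Mf K M) (Dfib.eq_tr f (fb K U'.pt e b h) (fb K U.pt (Bx.el f • e) b h') hle)
      (d := Bx.of (fb K U'.pt e b h).1) (Bx.mk' (Bx.el f) hle) ((flq K).hm f (fb K U'.pt e b h))
      rfl x
  · have h' : ¬ U.pt j = D.vt j (en D j (Bx.el f • e) b) := by
      intro h1
      rw [en_smul K] at h1
      have h2 : v = en D j e b := smul_left_cancel _ (K.vt_inj (h0.symm.trans h1))
      exact h (by rw [← h2]; exact hv)
    have e1 : pb1 K M U.pt (Bx.el f • e) b = 0 := dif_neg h'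
    have e2 : pb1 K M U'.pt e b = 0 := dif_neg h
    rw [e1, e2, LinearMap.zero_apply, LinearMap.zero_apply, map_zero]

theorem pr_nat {U U' : Bx (T.P Finset.univ)} (f : U ⟶ U') (v : D.V j)
    (hv : U'.pt j = D.vt j v) (z : ME D j M U'.pt) :
    letI := flAct K
    pr K M U.pt (mE K M f z) = ym (flq K) (Mf K M) f (pr K M U'.pt z) := by
  let := flAct K
  have h : pr K M U.pt ∘ₗ mE K M f = ym (flq K) (Mf K M) f ∘ₗ pr K M U'.pt := by
    refine ext_E M fun e x => ?_
    rw [LinearMap.comp_apply, LinearMap.comp_apply, mE_le, pr_le, pr_le, map_sub,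
      pb1_nat K M f v hv, pb1_nat K M f v hv]
  exact LinearMap.congr_fun h z

/-! ### The section -/

theorem le_up {U : T.Box} {c : T.B j} (h : c ≤ U j) : (T.P Finset.univ).le (T.up j U c) U := by
  intro i _
  show Function.update U j c i ≤ U i
  by_cases hi : i = j
  · rw [hi, Function.update_self]
    exact h
  · rw [Function.update_of_ne hi]

theorem up_le' {U : T.Box} {c : T.B j} (h : U j ≤ c) : (T.P Finset.univ).le U (T.up j U c) := by
  intro i _
  show U i ≤ Function.update U j c i
  by_cases hi : i = j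
  · rw [hi, Function.update_self]
    exact h
  · rw [Function.update_of_ne hi]

/-- From the value at `U` to the value at the vertex. -/
noncomputable def jv1 (U : Bx (T.P Finset.univ)) (v : D.V j) (h : U.pt j = D.vt j v) :
    M.obj (op U) →ₗ[k] MV D j M U.pt :=
  lv D j M U.pt v ∘ₗ rg M (ole (U := Bx.of (T.up j U.pt (D.vt j v))) (V := U) (le_up h.ge))

open Classical in
/-- From the value at `U` to the sum over the vertices. -/
noncomputable def jv (U : Bx (T.P Finset.univ)) : M.obj (op U) →ₗ[k] MV D j M U.pt :=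
  if h : ∃ v : D.V j, U.pt j = D.vt j v then jv1 M U h.choose h.choose_spec else 0

include K in
theorem jv_eq (U : Bx (T.P Finset.univ)) (v : D.V j) (h : U.pt j = D.vt j v) :
    jv (D := D) (j := j) M U = jv1 M U v h := by
  have h1 : ∃ v : D.V j, U.pt j = D.vt j v := ⟨v, h⟩
  have h2 : h1.choose = v := K.vt_inj (h1.choose_spec.symm.trans h)
  have h3 : jv (D := D) (j := j) M U = jv1 M U h1.choose h1.choose_spec := dif_pos h1
  rw [h3]
  congr 1

theorem jv_nat {U U' : Bx (T.P Finset.univ)} (f : U ⟶ U') (v : D.V j)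
    (hv : U'.pt j = D.vt j v) (x : M.obj (op U')) :
    jv (D := D) (j := j) M U (rg M f x) = mV K M f (jv (D := D) (j := j) M U' x) := by
  have h0 : U.pt j = D.vt j (Bx.el f • v) := by
    have h1 := Bx.le_el f j (Finset.mem_univ j)
    have h2 : (Bx.el f • U'.pt) j = D.vt j (Bx.el f • v) := by
      rw [K.vt_smul, ← hv]
      rfl
    rw [h2] at h1
    exact K.vt_min _ _ h1
  rw [jv_eq K M U _ h0, jv_eq K M U' v hv, jv1, jv1, LinearMap.comp_apply, LinearMap.comp_apply,
    mV_lv, rg_comp, rg_comp]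
  congr 1
  refine rg_congr M ?_ x
  rw [Bx.el_comp, Bx.el_comp]
  exact (one_mul _).trans (mul_one _).symm

open Classical in
/-- The component of a vertex. -/
noncomputable def cv1 (U : Bx (T.P Finset.univ)) (v : D.V j) :
    M.obj (op (Bx.of (T.up j U.pt (D.vt j v)) : Bx (T.P Finset.univ))) →ₗ[k] M.obj (op U) :=
  if h : U.pt j = D.vt j v then
    rg M (ole (U := U) (V := Bx.of (T.up j U.pt (D.vt j v))) (up_le' h.le)) else 0

open Classical in
variable (D j) in
/-- The component of the vertex `U`. -/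
noncomputable def cv (U : Bx (T.P Finset.univ)) : MV D j M U.pt →ₗ[k] M.obj (op U) :=
  DirectSum.toModule k (D.V j) _ fun v => cv1 M U v

theorem cv_lv (U : Bx (T.P Finset.univ)) (v : D.V j)
    (x : M.obj (op (Bx.of (T.up j U.pt (D.vt j v)) : Bx (T.P Finset.univ)))) :
    cv D j M U (lv D j M U.pt v x) = cv1 M U v x := by
  classical
  rw [cv]
  erw [DirectSum.toModule_lof]

include K in
theorem cv_jv (U : Bx (T.P Finset.univ)) (v : D.V j) (h : U.pt j = D.vt j v)
    (x : M.obj (op U)) : cv D j M U (jv M U x) = x := by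
  have e1 : cv1 M U v = rg M (ole (U := U) (V := Bx.of (T.up j U.pt (D.vt j v)))
    (up_le' h.le)) := dif_pos h
  rw [jv_eq K M U v h, jv1, LinearMap.comp_apply, cv_lv, e1, rg_comp]
  refine rg_id M ?_ x
  rw [Bx.el_comp]
  exact one_mul _

/-- The vertices of the flags are below their edges. -/
theorem φ_le (c : Fl D j) : letI := flAct K
    (T.P Finset.univ).le ((flq K).φ c) ((flr K).φ c) := by
  refine le_up ?_
  have h1 : c.1.2 j = D.ed j c.1.1.1 := c.2
  rw [h1, fe]
  split_ifs
  · exact D.sle j _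
  · exact D.tle j _

/-- The sum of the restrictions. -/
noncomputable def rL (U : Bx (T.P Finset.univ)) : Y K M U.pt →ₗ[k] M.obj (op U) :=
  letI := flAct K; rrL M (flq K) (flr K) (φ_le K) U

theorem rL_pb1 (U : Bx (T.P Finset.univ)) (e : D.E j) (b : Bool)
    (hb : D.vt j (en D j e b) ≤ D.ed j e)
    (x : M.obj (op (Bx.of (T.up j U.pt (D.ed j e)) : Bx (T.P Finset.univ)))) :
    rL K M U (pb1 K M U.pt e b x) = cv1 M U (en D j e b) (rg M (ou hb) x) := by
  let := flAct K
  by_cases h : U.pt j = D.vt j (en D j e b)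
  · have e1 : pb1 K M U.pt e b = yl (flq K) (Mf K M) (fb K U.pt e b h) := dif_pos h
    have e2 : cv1 M U (en D j e b) = rg M (ole (U := U)
      (V := Bx.of (T.up j U.pt (D.vt j (en D j e b)))) (up_le' h.le)) := dif_pos h
    rw [e1, e2, rg_comp]
    refine (rrL_yl M (flq K) (flr K) (φ_le K) U (fb K U.pt e b h) x).trans ?_
    refine rg_congr M ?_ x
    rw [Bx.el_comp]
    exact (one_mul _).symm
  · have e1 : pb1 K M U.pt e b = 0 := dif_neg h
    have e2 : cv1 M U (en D j e b) = 0 := dif_neg h
    rw [e1, e2, LinearMap.zero_apply, LinearMap.zero_apply, map_zero]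

theorem rL_pr (U : Bx (T.P Finset.univ)) (z : ME D j M U.pt) :
    rL K M U (pr K M U.pt z) = cv D j M U (D.bd M j U.pt z) := by
  have h : rL K M U ∘ₗ pr K M U.pt = cv D j M U ∘ₗ D.bd M j U.pt := by
    refine ext_E M fun e x => ?_
    rw [LinearMap.comp_apply, LinearMap.comp_apply, pr_le, bd_le, map_sub, map_sub, cv_lv, cv_lv]
    have h1 := rL_pb1 K M U e true (D.sle j e) x
    have h2 := rL_pb1 K M U e false (D.tle j e) x
    rw [h1, h2]
    rfl
  exact LinearMap.congr_fun h z

variable {M} (hM : D.Tac M j)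

/-- The inverse of the differential. -/
noncomputable def bi (U : T.Box) : MV D j M U →ₗ[k] ME D j M U :=
  (LinearEquiv.ofBijective (D.bd M j U) (hM U)).symm

theorem bd_bi (U : T.Box) (z : MV D j M U) : D.bd M j U (bi hM U z) = z :=
  (LinearEquiv.ofBijective (D.bd M j U) (hM U)).apply_symm_apply z

theorem bi_nat {U U' : Bx (T.P Finset.univ)} (f : U ⟶ U') (z : MV D j M U'.pt) :
    bi hM U.pt (mV K M f z) = mE K M f (bi hM U'.pt z) := by
  refine (hM U.pt).1 ?_
  rw [bd_bi, bd_nat, bd_bi]

/-- The map from the value at `U` to the flags. -/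
noncomputable def si (U : Bx (T.P Finset.univ)) : M.obj (op U) →ₗ[k] Y K M U.pt :=
  pr K M U.pt ∘ₗ bi hM U.pt ∘ₗ jv M U

theorem si_nat {U U' : Bx (T.P Finset.univ)} (f : U ⟶ U') (v : D.V j)
    (hv : U'.pt j = D.vt j v) (x : M.obj (op U')) :
    letI := flAct K
    si K hM U (rg M f x) = ym (flq K) (Mf K M) f (si K hM U' x) := by
  let := flAct K
  rw [si, si, LinearMap.comp_apply, LinearMap.comp_apply, LinearMap.comp_apply,
    LinearMap.comp_apply, jv_nat K M f v hv, bi_nat K hM, pr_nat K M f v hv]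

theorem rL_si (U : Bx (T.P Finset.univ)) (v : D.V j)
    (hv : U.pt j = D.vt j v) (x : M.obj (op U)) : rL K M U (si K hM U x) = x := by
  rw [si, LinearMap.comp_apply, LinearMap.comp_apply, rL_pr, bd_bi, cv_jv K M U v hv]

theorem not_nv {U : T.Box} (h : U ∉ nv K) : ∃ v : D.V j, U j = D.vt j v := by
  by_contra hc
  push Not at hc
  exact h hc

theorem fb_nv {U : T.Box} : letI := flAct K; ∀ c : Fb (flq K) U, U ∉ nv K := by
  intro c h
  refine h (fe D j c.1) ?_
  have h1 := congrFun c.2 j
  rw [← h1]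
  exact Function.update_self _ _ _

/-- The section. -/
noncomputable def sec : vp (up_nv K) M ⟶ ye K k M where
  app U := ModuleCat.ofHom (si K hM U.unop ∘ₗ Submodule.subtype _)
  naturality U U' f := by
    refine ModuleCat.hom_ext (LinearMap.ext fun x => ?_)
    let := flAct K
    show si K hM U'.unop (rg M f.unop x.1) = ym (flq K) (Mf K M) f.unop (si K hM U.unop x.1)
    by_cases h : U.unop.pt ∈ nv K
    · have h1 : x.1 = 0 := x.2 h
      rw [h1, map_zero, map_zero, map_zero, map_zero]
    · obtain ⟨v, hv⟩ := not_nv K h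
      exact si_nat K hM f.unop v hv x.1

/-- The retraction. -/
noncomputable def ret : ye K k M ⟶ vp (up_nv K) M where
  app U := ModuleCat.ofHom (LinearMap.codRestrict _ (rL K M U.unop) fun y h => by
    let := flAct K
    have h1 : rL K M U.unop = 0 := y_ext (flq K) (Mf K M) fun c x => absurd h (fb_nv K c)
    rw [h1, LinearMap.zero_apply])
  naturality U U' f := by
    let := flAct K
    refine ModuleCat.hom_ext (LinearMap.ext fun x => Subtype.ext ?_)
    exact congrArg (fun w => ModuleCat.Hom.hom w x)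
      ((rrm M (flq K) (flr K) (φ_le K)).naturality f)

theorem sec_ret : sec K hM ≫ ret K = 𝟙 (vp (up_nv K) M) := by
  refine NatTrans.ext (funext fun U => ModuleCat.hom_ext (LinearMap.ext fun x => Subtype.ext ?_))
  show rL K M U.unop (si K hM U.unop x.1) = x.1
  by_cases h : U.unop.pt ∈ nv K
  · have h1 : x.1 = 0 := x.2 h
    rw [h1, map_zero, map_zero]
  · obtain ⟨v, hv⟩ := not_nv K h
    exact rL_si K hM U.unop v hv x.1

end

/-- TR. -/
theorem tr : TrStatement.{u} := fun Γ _ T D j _ _ K k _ M hM =>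
  ⟨⟨sec K hM, ret K, sec_ret K hM⟩⟩

end Pool.Agent.NegK.NT.ER47
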