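import Pool.Agent.Lib.MP_28303a_al.NT.ER.Defs
import Pool.Agent.Lib.MP_28303a_al.NT.ER98.Zs

/-! # Row YS: the direct image along a discrete fibration -/

set_option autoImplicit false
set_option linter.unusedSectionVars false
set_option linter.unusedVariables false

namespace Pool.Agent.NegK.NT.ER47

universe u

open CategoryTheory Limits Opposite
open Pool.Agent.NegK.NT.ER

section

variable {k : Type u} [Ring k] {Γ : Type u} [Group Γ] {B C : Type u} [MulAction Γ B]
  [MulAction Γ C] {P : Pre Γ B} {Q : Pre Γ C}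

theorem yL_apply (q : Dfib Q P) {N N' : Fn k Q} (f : N ⟶ N') {U : B}
    (x : DirectSum (Fb q U) fun c => N.obj (op (Bx.of c.1))) (c : Fb q U) :
    yL q f U x c = (f.app (op (Bx.of c.1))).hom (x c) := by
  classical
  exact DirectSum.lmap_apply _ x c

theorem yy_map0 (q : Dfib Q P) (N N' : Fn k Q) : (yy (k := k) q).map (0 : N ⟶ N') = 0 := by
  refine NatTrans.ext (funext fun U => ModuleCat.hom_ext (y_ext q N fun c x => ?_))
  show yL q (0 : N ⟶ N') U.unop.pt (yl q N c x) = 0
  rw [yL_yl]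
  exact map_zero _

theorem yy_se (q : Dfib Q P) (S : ShortComplex (Fn k Q)) (hS : S.ShortExact) :
    ∃ w, (ShortComplex.mk ((yy (k := k) q).map S.f) ((yy q).map S.g) w).ShortExact := by
  classical
  have h1 : ∀ (U : B) (c : Fb q U),
      Function.Injective (S.f.app (op (Bx.of c.1))).hom := fun U c => by
    have i1 := hS.mono_f
    exact (ModuleCat.mono_iff_injective (S.f.app (op (Bx.of c.1)))).1 inferInstance
  have h2 : ∀ (U : B) (c : Fb q U) (x : S.X₂.obj (op (Bx.of c.1))),
      (S.g.app (op (Bx.of c.1))).hom x = 0 →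
      ∃ y, (S.f.app (op (Bx.of c.1))).hom y = x := fun U c x hx => by
    have h3 := hS.map_of_exact ((evaluation (Bx Q)ᵒᵖ (ModuleCat.{u} k)).obj (op (Bx.of c.1)))
    exact (ShortComplex.moduleCat_exact_iff _).1 h3.exact x hx
  have h3 : ∀ (U : B) (c : Fb q U) (x : S.X₃.obj (op (Bx.of c.1))),
      ∃ y, (S.g.app (op (Bx.of c.1))).hom y = x := fun U c x => by
    have i3 := hS.epi_g
    exact (ModuleCat.epi_iff_surjective (S.g.app (op (Bx.of c.1)))).1 inferInstance x
  refine ⟨?_, Zs98.se_of_val _ ?_ ?_ ?_⟩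
  · rw [← Functor.map_comp, S.zero, yy_map0]
  · intro U x y hxy
    refine DFinsupp.ext fun c => h1 U.unop.pt c ?_
    have h4 := congrArg (fun z : DirectSum (Fb q U.unop.pt) fun c =>
      S.X₂.obj (op (Bx.of c.1)) => z c) hxy
    exact ((yL_apply q S.f x c).symm.trans h4).trans (yL_apply q S.f y c)
  · intro U (x : DirectSum (Fb q U.unop.pt) fun c => S.X₂.obj (op (Bx.of c.1))) hx
    have h4 : ∀ c : Fb q U.unop.pt, (S.g.app (op (Bx.of c.1))).hom (x c) = 0 := fun c => by
      have h5 := congrArg (fun z : DirectSum (Fb q U.unop.pt) fun c =>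
        S.X₃.obj (op (Bx.of c.1)) => z c) hx
      exact (yL_apply q S.g x c).symm.trans h5
    choose y hy using fun c => h2 U.unop.pt c (x c) (h4 c)
    refine ⟨(DFinsupp.mk (DFinsupp.support (β := fun c : Fb q U.unop.pt =>
      S.X₂.obj (op (Bx.of c.1))) x) fun c => y c.1 :
        DirectSum (Fb q U.unop.pt) fun c => S.X₁.obj (op (Bx.of c.1))), ?_⟩
    refine DFinsupp.ext fun c => ?_
    refine (yL_apply q S.f _ c).trans ?_
    by_cases hc : c ∈ DFinsupp.support (β := fun c : Fb q U.unop.pt =>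
      S.X₂.obj (op (Bx.of c.1))) x
    · rw [DFinsupp.mk_of_mem hc]
      exact hy c
    · rw [DFinsupp.mk_of_notMem hc, map_zero]
      exact (DFinsupp.notMem_support_iff.1 hc).symm
  · intro U (x : DirectSum (Fb q U.unop.pt) fun c => S.X₃.obj (op (Bx.of c.1)))
    choose y hy using fun c => h3 U.unop.pt c
    refine ⟨(DFinsupp.mk (DFinsupp.support (β := fun c : Fb q U.unop.pt =>
      S.X₃.obj (op (Bx.of c.1))) x) fun c => y c.1 (x c.1) :
        DirectSum (Fb q U.unop.pt) fun c => S.X₂.obj (op (Bx.of c.1))), ?_⟩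
    refine DFinsupp.ext fun c => ?_
    refine (yL_apply q S.g _ c).trans ?_
    by_cases hc : c ∈ DFinsupp.support (β := fun c : Fb q U.unop.pt =>
      S.X₃.obj (op (Bx.of c.1))) x
    · rw [DFinsupp.mk_of_mem hc]
      exact hy c (x c)
    · rw [DFinsupp.mk_of_notMem hc, map_zero]
      exact (DFinsupp.notMem_support_iff.1 hc).symm

theorem yy_ps (q : Dfib Q P) (n : ℕ) (c : Bx Q) :
    Nonempty ((yy (k := k) q).obj (H78.PS k (fun _ : Fin n => c)) ≅
      H78.PS k (fun _ : Fin n => (Bx.of (q.φ c.pt) : Bx P))) := by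
  classical
  let lc : Fin n → Bx Q := fun _ => c
  let V : Bx P := Bx.of (q.φ c.pt)
  let lv : Fin n → Bx P := fun _ => V
  let N : Fn k Q := H78.PS k lc
  let c0 : Fb q V.pt := ⟨c.pt, rfl⟩
  let g0 : ∀ {d : Bx Q} (i : Fin n) (h : d ⟶ c) (r : k), N.obj (op d) :=
    fun {d} i h r => (H78.pg lc i h r : H78.Val (H78.PS k lc) d)
  have hg0 : ∀ {d d' : Bx Q} (i : Fin n) (h : d ⟶ c) (a : d' ⟶ d) (r : k),
      (N.map a.op).hom (g0 i h r) = g0 i (a ≫ h) r := fun {d d'} i h a r =>
    H78.res_pg lc a i h r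
  let x0 : ∀ i, H78.Val ((yy (k := k) q).obj N) (lv i) := fun i => yl q N c0 (g0 i (𝟙 c) (1 : k))
  let φ : H78.PS k lv ⟶ (yy (k := k) q).obj N := H78.lift lv x0
  have hφ : ∀ (U : Bx P) (i : Fin n) (f : U ⟶ V) (r : k),
      H78.vmap φ U (H78.pg lv i f r) =
        (yl q N (q.tr f c0) (g0 i (q.hm f c0) r) : H78.Val ((yy (k := k) q).obj N) U) := by
    intro U i f r
    refine (H78.lift_pg lv x0 i f r).trans ?_
    have h1 : ym q N f (yl q N c0 (g0 i (𝟙 c) (1 : k))) =
        yl q N (q.tr f c0) (g0 i (q.hm f c0) (1 : k)) := by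
      rw [ym_yl, hg0]
      exact congrArg (fun z => yl q N (q.tr f c0) (g0 i z (1 : k))) (Category.comp_id _)
    refine (congrArg (fun z : DirectSum (Fb q U.pt) (fun c => N.obj (op (Bx.of c.1))) => r • z)
      h1).trans ?_
    have h2 : r • g0 i (q.hm f c0) (1 : k) = g0 i (q.hm f c0) r := by
      refine (H78.smul_pg lc i (q.hm f c0) r 1).trans ?_
      rw [mul_one]
    refine ((yl q N (q.tr f c0)).map_smul r _).symm.trans ?_
    rw [h2]
  -- the inverse
  let dn : ∀ {U : Bx P} (d : Fb q U.pt) (h : (Bx.of d.1 : Bx Q) ⟶ c), (U ⟶ V) :=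
    fun {U} d h => Bx.mk' (Bx.el h) (by
      have h1 := q.le (Bx.le_el h)
      rw [q.smul] at h1
      exact (congrArg (fun z => P.le z (Bx.el h • q.φ c.pt)) d.2).mp h1)
  have hdn : ∀ {U : Bx P} (d : Fb q U.pt) (h : (Bx.of d.1 : Bx Q) ⟶ c),
      d = q.tr (dn d h) c0 := fun {U} d h => q.eq_tr (dn d h) c0 d (Bx.le_el h)
  have hinj : ∀ U : Bx P, Function.Injective (H78.vmap φ U) := by
    intro U
    let ψ : (DirectSum (Fb q U.pt) fun c => N.obj (op (Bx.of c.1))) →ₗ[k]
        H78.Val (H78.PS k lv) U :=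
      DirectSum.toModule k (Fb q U.pt) _ fun d =>
        Finsupp.linearCombination k (fun p : (Σ i, ((Bx.of d.1 : Bx Q) ⟶ lc i)) =>
          (H78.pg lv p.1 (dn d p.2) (1 : k) : H78.Val (H78.PS k lv) U))
    have hψ : ∀ (d : Fb q U.pt) (i : Fin n) (h : (Bx.of d.1 : Bx Q) ⟶ c) (r : k),
        ψ (yl q N d (g0 i h r)) = H78.pg lv i (dn d h) r := by
      intro d i h r
      have h1 : ψ (yl q N d (g0 i h r)) =
        (Finsupp.linearCombination k (fun p : (Σ i, ((Bx.of d.1 : Bx Q) ⟶ lc i)) =>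
          (H78.pg lv p.1 (dn d p.2) (1 : k) : H78.Val (H78.PS k lv) U))) (g0 i h r) := by
        erw [DirectSum.toModule_lof]
        rfl
      refine h1.trans ?_
      refine (Finsupp.linearCombination_single k r _).trans ?_
      rw [H78.smul_pg, mul_one]
    refine Function.LeftInverse.injective (g := ψ) fun x => ?_
    have h1 : (ψ.toAddMonoidHom.comp (H78.vmap φ U).toAddMonoidHom) = AddMonoidHom.id _ := by
      refine H78.pg_hom_ext lv fun i a r => ?_
      show ψ (H78.vmap φ U (H78.pg lv i a r)) = H78.pg lv i a r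
      rw [hφ]
      exact hψ (q.tr a c0) i (q.hm a c0) r
    exact DFunLike.congr_fun h1 x
  have hsurj : ∀ U : Bx P, Function.Surjective (H78.vmap φ U) := by
    intro U x
    have h1 : ∀ x : (DirectSum (Fb q U.pt) fun c => N.obj (op (Bx.of c.1))),
        ∃ y, H78.vmap φ U y = x := by
      intro x
      induction x using DirectSum.induction_on with
      | zero => exact ⟨0, map_zero _⟩
      | add x y hx hy =>
        obtain ⟨x', hx'⟩ := hx
        obtain ⟨y', hy'⟩ := hy
        exact ⟨x' + y', (map_add _ _ _).trans (congrArg₂ (fun a b => a + b) hx' hy')⟩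
      | of d z =>
        have h2 : ∀ z : H78.Val (H78.PS k lc) (Bx.of d.1 : Bx Q),
            ∃ y, H78.vmap φ U y = (yl q N d z : DirectSum (Fb q U.pt) fun c =>
              N.obj (op (Bx.of c.1))) := by
          intro z
          induction z using H78.pg_induction with
          | h0 => exact ⟨0, (map_zero _).trans (map_zero (yl q N d)).symm⟩
          | hadd x y hx hy =>
            obtain ⟨x', hx'⟩ := hx
            obtain ⟨y', hy'⟩ := hy
            refine ⟨x' + y', (map_add _ _ _).trans ?_⟩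
            exact (congrArg₂ (fun a b => a + b) hx' hy').trans (map_add (yl q N d) x y).symm
          | h i a r =>
            refine ⟨H78.pg lv i (dn d a) r, ?_⟩
            rw [hφ]
            have h3 := yl_eq q N (hdn d a) a (q.hm (dn d a) c0) rfl (g0 i (𝟙 c) r)
            rw [hg0, hg0, Category.comp_id] at h3
            refine Eq.trans ?_ h3.symm
            exact congrArg (fun z => yl q N (q.tr (dn d a) c0) (g0 i z r))
              (Category.comp_id _).symm
        exact h2 z
    exact h1 x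
  have h1 := H78.epi_of_val φ hsurj
  have h2 := H78.mono_of_val φ hinj
  have h3 : IsIso φ := isIso_of_mono_of_epi _
  exact ⟨(asIso φ).symm⟩

end

/-- Row YS. -/
theorem ys : YsStatement.{u} := fun k _ Γ _ B C _ _ P Q q =>
  ⟨fun S hS => yy_se q S hS, fun n c => yy_ps q n c⟩

end Pool.Agent.NegK.NT.ER47
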